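import Mathlib
import Pool.Agent.Results.MP_622f37_al.NoneSpecifies

/-!
# Classes of lattices between six dimensional subspace lattices and subspace lattices over
division rings: definitions
-/

set_option autoImplicit false

namespace Pool.Agent.Y212.SL

open FirstOrder Pool.Agent.H686R3 Pool.Agent.Results.MP_622f37_al.NoneSpecifies

/-- `L` is isomorphic to a sublattice of the lattice of all subspaces of a vector space of
dimension at most six over a commutative field. -/
def SixDim (L : Type) [Lattice L] : Prop :=
  ∃ (F : Type) (_ : Field F) (V : Type) (_ : AddCommGroup V) (_ : Module F V),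
    Module.Finite F V ∧ Module.finrank F V ≤ 6 ∧
      ∃ f : LatticeHom L (Submodule F V), Function.Injective f

/-- `L` is isomorphic to a sublattice of the lattice of all subspaces of a finite dimensional
vector space over a commutative field. -/
def FinDim (L : Type) [Lattice L] : Prop :=
  ∃ (F : Type) (_ : Field F) (V : Type) (_ : AddCommGroup V) (_ : Module F V),
    Module.Finite F V ∧ ∃ f : LatticeHom L (Submodule F V), Function.Injective f

/-- `L` is isomorphic to a sublattice of the lattice of all subspaces of a vector space of any
dimension over a division ring (commutative or not). -/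
def DivLat (L : Type) [Lattice L] : Prop :=
  ∃ (D : Type) (_ : DivisionRing D) (V : Type) (_ : AddCommGroup V) (_ : Module D V)
    (f : LatticeHom L (Submodule D V)), Function.Injective f

/-- `L` is isomorphic to a sublattice of the lattice of all subgroups of an abelian group. -/
def SubgroupLat (L : Type) [Lattice L] : Prop :=
  ∃ (A : Type) (_ : AddCommGroup A) (f : LatticeHom L (AddSubgroup A)), Function.Injective f

/-- The class `C` contains `SixDim`, and its members which are isomorphic to sublattices of
subgroup lattices of abelian groups are in `DivLat`. -/
structure Between (C : (L : Type) → [Lattice L] → Prop) : Prop where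
  lower : ∀ (L : Type) [Lattice L], SixDim L → C L
  upper : ∀ (L : Type) [Lattice L], SubgroupLat L → C L → DivLat L

/-- The class `Q` of lattices is closed under products of two lattices. -/
def ProductClosed (Q : (L : Type) → [Lattice L] → Prop) : Prop :=
  ∀ (A B : Type) [Lattice A] [Lattice B], Q A → Q B → Q (A × B)

/-- Statement (i) for the class `C`: some set of identities specifies `C`. -/
def ByIdentities (C : (L : Type) → [Lattice L] → Prop) : Prop :=
  ∃ E : Set (latLang.Term ℕ × latLang.Term ℕ),
    ∀ (L : Type) [Lattice L], C L ↔ ∀ e ∈ E, SatisfiesIdentity L e

/-- Statement (ii) for the class `C`: some finite set of sentences specifies `C`. -/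
def ByFinitelyManySentences (C : (L : Type) → [Lattice L] → Prop) : Prop :=
  ∃ Sg : Set latLang.Sentence, Sg.Finite ∧
    ∀ (L : Type) [Lattice L], C L ↔ ∀ φ ∈ Sg, L ⊨ φ

/-- Statement (iii) for the class `C`: some finite set of identities specifies `C`. -/
def ByFinitelyManyIdentities (C : (L : Type) → [Lattice L] → Prop) : Prop :=
  ∃ E : Set (latLang.Term ℕ × latLang.Term ℕ), E.Finite ∧
    ∀ (L : Type) [Lattice L], C L ↔ ∀ e ∈ E, SatisfiesIdentity L e

/-- Among the sublattices of subgroup lattices of abelian groups, the members of `C` are those
which are in a suitable product closed class (for example a variety, a quasivariety or a class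
given by Horn sentences) and satisfy a suitable finite set of sentences. -/
def ByMixedConditions (C : (L : Type) → [Lattice L] → Prop) : Prop :=
  ∃ Q : (L : Type) → [Lattice L] → Prop, ProductClosed Q ∧
    ∃ Sg : Set latLang.Sentence, Sg.Finite ∧
      ∀ (L : Type) [Lattice L], SubgroupLat L → (C L ↔ Q L ∧ ∀ φ ∈ Sg, L ⊨ φ)

end Pool.Agent.Y212.SL
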