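import Pool.Agent.Y212.SL.Defs

set_option autoImplicit false

namespace Pool.Agent.Y212.SL

open FirstOrder Filter Pool.Agent.H686R3 Pool.Agent.Results.MP_622f37_al.NoneSpecifies

/-! ### Subgroup lattices -/

/-- the submodules as subgroups -/
def subHom (D V : Type) [Ring D] [AddCommGroup V] [Module D V] :
    LatticeHom (Submodule D V) (AddSubgroup V) where
  toFun S := S.toAddSubgroup
  map_sup' S T := by
    ext x
    rw [Submodule.mem_toAddSubgroup, Submodule.mem_sup, AddSubgroup.mem_sup]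
    rfl
  map_inf' S T := by
    ext x
    rfl

lemma subHom_injective (D V : Type) [Ring D] [AddCommGroup V] [Module D V] :
    Function.Injective (subHom D V) := by
  intro S T h
  ext x
  have : x ∈ (subHom D V S) ↔ x ∈ (subHom D V T) := by rw [h]
  exact this

lemma subgroupLat_of_hom {L D V : Type} [Lattice L] [Ring D] [AddCommGroup V] [Module D V]
    (f : LatticeHom L (Submodule D V)) (hf : Function.Injective f) : SubgroupLat L :=
  ⟨V, inferInstance, (subHom D V).comp f, (subHom_injective D V).comp hf⟩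

lemma twoField_subgroupLat (F E : Type) [Field F] [Field E] : SubgroupLat (TwoField F E) := by
  refine ⟨(Fin 3 → F) × (Fin 3 → E), inferInstance,
    { toFun := fun S => S.1.toAddSubgroup.prod S.2.toAddSubgroup
      map_sup' := ?_
      map_inf' := ?_ }, ?_⟩
  · rintro ⟨S, T⟩ ⟨S', T'⟩
    ext ⟨x, y⟩
    rw [AddSubgroup.mem_sup]
    constructor
    · rintro ⟨h1, h2⟩
      obtain ⟨a, ha, b, hb, hab⟩ := Submodule.mem_sup.1 h1
      obtain ⟨c, hc, d, hd, hcd⟩ := Submodule.mem_sup.1 h2
      exact ⟨(a, c), ⟨ha, hc⟩, (b, d), ⟨hb, hd⟩, Prod.ext hab hcd⟩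
    · rintro ⟨⟨a, c⟩, ⟨ha, hc⟩, ⟨b, d⟩, ⟨hb, hd⟩, h⟩
      have h1 : a + b = x := congrArg Prod.fst h
      have h2 : c + d = y := congrArg Prod.snd h
      exact ⟨Submodule.mem_sup.2 ⟨a, ha, b, hb, h1⟩, Submodule.mem_sup.2 ⟨c, hc, d, hd, h2⟩⟩
  · rintro ⟨S, T⟩ ⟨S', T'⟩
    ext ⟨x, y⟩
    constructor
    · rintro ⟨⟨h1, h2⟩, ⟨h3, h4⟩⟩
      exact ⟨⟨h1, h3⟩, ⟨h2, h4⟩⟩
    · rintro ⟨⟨h1, h2⟩, ⟨h3, h4⟩⟩
      exact ⟨⟨h1, h3⟩, ⟨h2, h4⟩⟩
  · rintro ⟨S, T⟩ ⟨S', T'⟩ h
    have key : ∀ (x : Fin 3 → F) (y : Fin 3 → E), (x ∈ S ∧ y ∈ T) ↔ (x ∈ S' ∧ y ∈ T') := by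
      intro x y
      have := SetLike.ext_iff.1 h (x, y)
      exact this
    have h1 : S = S' := by
      ext x
      have := key x 0
      simpa using this
    have h2 : T = T' := by
      ext y
      have := key 0 y
      simpa using this
    rw [h1, h2]

/-! ### The dimension of the ultraproduct -/

section ultra

variable {I : Type} (U : Ultrafilter I) (F : I → Type) [∀ i, Field (F i)]
variable (V : I → Type) [∀ i, AddCommGroup (V i)] [∀ i, Module (F i) (V i)]

lemma toUMod_sum {n : ℕ} (w : Fin n → ∀ i, V i) :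
    toUMod U F V (∑ j, w j) = ∑ j, toUMod U F V (w j) := by
  classical
  induction (Finset.univ : Finset (Fin n)) using Finset.induction_on with
  | empty => rw [Finset.sum_empty, Finset.sum_empty]; exact toUMod_zero U F V
  | insert a s ha ih => rw [Finset.sum_insert ha, Finset.sum_insert ha, toUMod_add, ih]

/-- Spanning families of length `n` give a spanning family of length `n` of the ultraproduct. -/
lemma uspan {n : ℕ} (s : ∀ i, Fin n → V i)
    (hs : ∀ i, Submodule.span (F i) (Set.range (s i)) = ⊤) :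
    Submodule.span (UField U F) (Set.range fun j => toUMod U F V (fun i => s i j)) = ⊤ := by
  rw [eq_top_iff]
  intro w _
  obtain ⟨v, rfl⟩ := toUMod_surjective U F V w
  have hc : ∀ i, ∃ c : Fin n → F i, ∑ j, c j • s i j = v i := by
    intro i
    have : v i ∈ Submodule.span (F i) (Set.range (s i)) := by rw [hs i]; trivial
    exact (Submodule.mem_span_range_iff_exists_fun (F i)).1 this
  choose c hc using hc
  have hv : v = ∑ j, (fun i => c i j) • (fun i => s i j) := by
    funext i
    rw [Finset.sum_apply]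
    exact (hc i).symm
  rw [hv, toUMod_sum]
  refine Submodule.sum_mem _ fun j _ => ?_
  rw [toUMod_smul]
  exact Submodule.smul_mem _ _ (Submodule.subset_span ⟨j, rfl⟩)

lemma finrank_le_three {K W : Type} [Field K] [AddCommGroup W] [Module K W] (v : Fin 3 → W)
    (hv : Submodule.span K (Set.range v) = ⊤) : Module.Finite K W ∧ Module.finrank K W ≤ 3 := by
  refine ⟨⟨Submodule.fg_def.2 ⟨Set.range v, Set.finite_range v, hv⟩⟩, ?_⟩
  have := finrank_le_of_span_eq_top hv
  simpa using this

end ultra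

lemma span_std (K : Type) [Field K] :
    Submodule.span K (Set.range (Pi.basisFun K (Fin 3))) = ⊤ := (Pi.basisFun K (Fin 3)).span_eq

lemma MM_sixDim : SixDim MM := by
  have h1 : Submodule.span EE (Set.range fun j : Fin 3 =>
      toUMod UU PF (fun i => Fin 3 → PF i) (fun i => Pi.basisFun (PF i) (Fin 3) j)) = ⊤ :=
    uspan UU PF (fun i => Fin 3 → PF i) (fun i => Pi.basisFun (PF i) (Fin 3))
      (fun i => span_std (PF i))
  obtain ⟨i1, r1⟩ := finrank_le_three _ (uspan UU (fun _ : ℕ => EE) (fun _ : ℕ => W1)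
    (fun _ => fun j : Fin 3 =>
      toUMod UU PF (fun i => Fin 3 → PF i) (fun i => Pi.basisFun (PF i) (Fin 3) j))
    (fun _ => h1))
  obtain ⟨i2, r2⟩ := finrank_le_three _ (uspan UU (fun _ : ℕ => EE) (fun _ : ℕ => (Fin 3 → EE))
    (fun _ => Pi.basisFun EE (Fin 3)) (fun _ => span_std EE))
  refine ⟨FF, inferInstance, WW, inferInstance, inferInstance, ?_, ?_,
    Sublattice.subtype MM, Subtype.coe_injective⟩
  · exact Module.Finite.prod
  · have := Module.finrank_prod (R := FF)
      (M := UMod UU (fun _ : ℕ => EE) (fun _ : ℕ => W1))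
      (M' := UMod UU (fun _ : ℕ => EE) (fun _ : ℕ => (Fin 3 → EE)))
    have r1' : Module.finrank FF (UMod UU (fun _ : ℕ => EE) (fun _ : ℕ => W1)) ≤ 3 := r1
    have r2' : Module.finrank FF (UMod UU (fun _ : ℕ => EE) (fun _ : ℕ => (Fin 3 → EE))) ≤ 3 := r2
    have h2 : Module.finrank FF WW =
        Module.finrank FF (UMod UU (fun _ : ℕ => EE) (fun _ : ℕ => W1)) +
        Module.finrank FF (UMod UU (fun _ : ℕ => EE) (fun _ : ℕ => (Fin 3 → EE))) := this
    rw [h2]
    exact Nat.add_le_add r1' r2'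

lemma sixDim_three (K : Type) [Field K] : SixDim (Submodule K (Fin 3 → K)) :=
  ⟨K, inferInstance, Fin 3 → K, inferInstance, inferInstance, inferInstance,
    by rw [Module.finrank_fintype_fun_eq_card]; simp,
    LatticeHom.id _, Function.injective_id⟩

/-- the theorem of Los for the lattices `LL i` -/
lemma los (σ : latLang.Sentence) (h : MM ⊨ σ) : ∀ᶠ i in (UU : Filter ℕ), LL i ⊨ σ := by
  rw [← FirstOrder.Language.Ultraproduct.sentence_realize]
  exact (FirstOrder.Language.StrongHomClass.realize_sentence iso σ).mpr h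

theorem not_mixed (C : (L : Type) → [Lattice L] → Prop) (hC : Between C) :
    ¬ ByMixedConditions C := by
  rintro ⟨Q, hQ, Sg, hfin, h⟩
  have h3 : ∀ (K : Type) [Field K], Q (Submodule K (Fin 3 → K)) := fun K _ =>
    ((h _ (subgroupLat_of_hom (LatticeHom.id _) Function.injective_id)).1
      (hC.lower _ (sixDim_three K))).1
  have hMM : ∀ φ ∈ Sg, MM ⊨ φ :=
    ((h _ (subgroupLat_of_hom (Sublattice.subtype MM) Subtype.coe_injective)).1
      (hC.lower _ MM_sixDim)).2
  have h2 : ∀ᶠ i in (UU : Filter ℕ), ∀ φ ∈ Sg, LL i ⊨ φ :=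
    (Filter.eventually_all_finite hfin).mpr fun φ hφ => los φ (hMM φ hφ)
  obtain ⟨i, hi⟩ := h2.exists
  have h4 : C (LL i) := (h _ (twoField_subgroupLat _ _)).2 ⟨hQ _ _ (h3 _) (h3 _), hi⟩
  obtain ⟨D, _, V, _, _, f, hf⟩ := hC.upper _ (twoField_subgroupLat _ _) h4
  exact LL_not_embeds i f hf

theorem not_identities' (C : (L : Type) → [Lattice L] → Prop) (hC : Between C) :
    ¬ ByIdentities C := by
  rintro ⟨E, hE⟩
  refine not_mixed C hC ⟨fun L _ => ∀ e ∈ E, SatisfiesIdentity L e, ?_, ∅, Set.finite_empty, ?_⟩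
  · intro A B _ _ hA hB e he
    exact prod_satisfies (hA e he) (hB e he)
  · intro L _ _
    constructor
    · intro hL
      exact ⟨(hE L).1 hL, fun φ hφ => absurd hφ (Set.notMem_empty φ)⟩
    · intro hL
      exact (hE L).2 hL.1

theorem not_finite_sentences' (C : (L : Type) → [Lattice L] → Prop) (hC : Between C) :
    ¬ ByFinitelyManySentences C := by
  rintro ⟨Sg, hfin, h⟩
  refine not_mixed C hC ⟨fun L _ => True, fun A B _ _ _ _ => trivial, Sg, hfin, ?_⟩
  intro L _ _
  constructor
  · intro hL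
    exact ⟨trivial, (h L).1 hL⟩
  · intro hL
    exact (h L).2 hL.2

theorem not_finite_identities' (C : (L : Type) → [Lattice L] → Prop) (hC : Between C) :
    ¬ ByFinitelyManyIdentities C := fun ⟨E, _, hE⟩ => not_identities' C hC ⟨E, hE⟩

lemma field_div {L : Type} [Lattice L] (h : InClass L) : DivLat L := by
  obtain ⟨F, _, V, _, _, f, hf⟩ := h
  exact ⟨F, inferInstance, V, inferInstance, inferInstance, f, hf⟩

lemma six_fin {L : Type} [Lattice L] (h : SixDim L) : FinDim L := by
  obtain ⟨F, _, V, _, _, hfin, _, f, hf⟩ := h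
  exact ⟨F, inferInstance, V, inferInstance, inferInstance, hfin, f, hf⟩

lemma fin_field {L : Type} [Lattice L] (h : FinDim L) : InClass L := by
  obtain ⟨F, _, V, _, _, hfin, f, hf⟩ := h
  exact ⟨F, inferInstance, V, inferInstance, inferInstance, f, hf⟩

theorem between_six : Between (fun L _ => SixDim L) :=
  ⟨fun _ _ h => h, fun _ _ _ h => field_div (fin_field (six_fin h))⟩

theorem between_fin : Between (fun L _ => FinDim L) :=
  ⟨fun _ _ h => six_fin h, fun _ _ _ h => field_div (fin_field h)⟩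

theorem between_field : Between (fun L _ => InClass L) :=
  ⟨fun _ _ h => fin_field (six_fin h), fun _ _ _ h => field_div h⟩

theorem between_div : Between (fun L _ => DivLat L) :=
  ⟨fun _ _ h => field_div (fin_field (six_fin h)), fun _ _ _ h => h⟩

end Pool.Agent.Y212.SL
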